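import Pool.Agent.KS6_88.TP.Blow

/-!
# MP_8cf036_co: the order of `r_k(P_s, K_t)` in both parameters

For every `k ≥ 3` there are `c, C > 0` and `T` (depending on `k` only) such that for ALL `s ≥ k + 1`
and all `t ≥ T`, `c s t^(k-1) ≤ r_k(P_s^(k), K_t^(k)) ≤ C s t^(k-1)`.
-/

set_option autoImplicit false

namespace Pool.Agent.Results.MP_8cf036_co.LinearInLength

/-- `H` (its `k`-element members are the edges) on `n` vertices contains the tight `k`-uniform path
with `s` edges: `s + k - 1` distinct vertices all of whose `s` windows of length `k` are edges. -/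
def HasTightPath (k s n : ℕ) (H : Set (Finset (Fin n))) : Prop :=
  ∃ v : Fin (s + k - 1) → Fin n, Function.Injective v ∧
    ∀ i : Fin s,
      (Finset.univ.filter (fun j : Fin (s + k - 1) => i.val ≤ j.val ∧ j.val < i.val + k)).image v ∈ H

/-- `H` has an independent set of size `t`: no `k`-element subset of it is an edge. -/
def HasIndep (k t n : ℕ) (H : Set (Finset (Fin n))) : Prop :=
  ∃ S : Finset (Fin n), S.card = t ∧ ∀ e : Finset (Fin n), e ⊆ S → e.card = k → e ∉ H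

/-- every `k`-graph on `n` vertices has the tight path with `s` edges or an independent `t`-set. -/
def Arrows (k s t n : ℕ) : Prop :=
  ∀ H : Set (Finset (Fin n)), HasTightPath k s n H ∨ HasIndep k t n H

/-- the Ramsey number `r_k(P_s, K_t)`: the least `n` with `Arrows k s t n`. -/
noncomputable def ramsey (k s t : ℕ) : ℕ := sInf {n : ℕ | Arrows k s t n}

/-- For every `k ≥ 3` the Ramsey number of the tight path with `s` edges versus `K_t` has exact order
`s t^(k-1)`, uniformly in `s ≥ k + 1` and `t ≥ T(k)`; moreover every `n ≥ C s t^(k-1)` arrows and no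
`n ≤ c s t^(k-1)` does. -/
theorem result :
    ∀ k : ℕ, 3 ≤ k → ∃ c C : ℝ, 0 < c ∧ 0 < C ∧ ∃ T : ℕ, ∀ s : ℕ, k + 1 ≤ s → ∀ t : ℕ, T ≤ t →
      (c * s * (t : ℝ) ^ (k - 1) ≤ (ramsey k s t : ℝ) ∧
        (ramsey k s t : ℝ) ≤ C * s * (t : ℝ) ^ (k - 1)) ∧
      (∀ n : ℕ, C * s * (t : ℝ) ^ (k - 1) ≤ (n : ℝ) → Arrows k s t n) ∧
      (∀ n : ℕ, (n : ℝ) ≤ c * s * (t : ℝ) ^ (k - 1) → ¬ Arrows k s t n) := by
  intro k hk
  obtain ⟨c, hc, T, hT⟩ := Pool.Agent.KS6_88.TP.lower_blow k hk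
  have hup : ∀ s : ℕ, k + 1 ≤ s → ∀ t : ℕ, 1 ≤ t → ∀ n : ℕ,
      (s * k * 2 ^ k + k + 2) * t ^ (k - 1) ≤ n → Arrows k s t n := by
    intro s hs t ht n hn H
    exact Pool.Agent.Helper660.TP.upper_bound (by omega) (by omega) ht hn (by omega) H
  have hco : ∀ s : ℕ, k + 1 ≤ s → s * k * 2 ^ k + k + 2 ≤ (k * 2 ^ k + 2) * s := by
    intro s hs
    nlinarith
  refine ⟨c, ((k * 2 ^ k + 2 : ℕ) : ℝ), hc, by positivity, max T 1, ?_⟩
  intro s hs t ht
  have ht1 : T ≤ t := (le_max_left _ _).trans ht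
  have ht2 : 1 ≤ t := (le_max_right _ _).trans ht
  have A : ∀ n : ℕ, ((k * 2 ^ k + 2 : ℕ) : ℝ) * s * (t : ℝ) ^ (k - 1) ≤ (n : ℝ) →
      Arrows k s t n := by
    intro n hn
    apply hup s hs t ht2 n
    have h1 : (k * 2 ^ k + 2) * s * t ^ (k - 1) ≤ n := by exact_mod_cast hn
    exact (Nat.mul_le_mul_right _ (hco s hs)).trans h1
  have B : ∀ n : ℕ, (n : ℝ) ≤ c * s * (t : ℝ) ^ (k - 1) → ¬ Arrows k s t n := by
    intro n hn hA
    exact hT s hs t ht1 n hn hA
  have hmem : Arrows k s t ((k * 2 ^ k + 2) * s * t ^ (k - 1)) :=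
    A _ (by push_cast; exact le_rfl)
  have hne : {n : ℕ | Arrows k s t n}.Nonempty := ⟨_, hmem⟩
  refine ⟨⟨?_, ?_⟩, A, B⟩
  · by_contra hlt
    exact B _ (not_le.mp hlt).le (Nat.sInf_mem hne)
  · have : ramsey k s t ≤ (k * 2 ^ k + 2) * s * t ^ (k - 1) := Nat.sInf_le hmem
    exact_mod_cast this

end Pool.Agent.Results.MP_8cf036_co.LinearInLength
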